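import Mathlib
import Pool.Agent.H434.N13
import Pool.Agent.H434.P5
import Pool.Agent.H434.P8

/-!
MP_e97a4d_nt, Q1: the implication from (i) to (ii) for affine schemes with a map to a cover of a torus
with arbitrary monodromy, without any condition on the ramification: all but finitely many `S`-integral
points outside `V'` are close to bad directions at all places of `S`, and (ii) holds for the rings with
few places. It holds, for example, for covers of the two-dimensional torus and the rings with at most two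
places (infinite or in `S`) if the Newton polygons of the discriminants have no parallel edges.
-/

set_option autoImplicit false

namespace Pool.Agent.Results.MP_e97a4d_nt.BadDirectionsAllCovers

open MvPolynomial NumberField IsDedekindDomain

/-- The complex points of the affine scheme over `𝓞 K` given by the polynomials `F i`. -/
def Pts {K : Type} [Field K] {ι : Type} {N : ℕ} (σ : K →+* ℂ)
    (F : ι → MvPolynomial (Fin N) (𝓞 K)) : Set (Fin N → ℂ) :=
  {z | ∀ i, eval₂ (σ.comp (algebraMap (𝓞 K) K)) z (F i) = 0}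

/-- The `S`-integral points over `L` of the affine scheme given by the polynomials `F i`. -/
def IntPts {K : Type} [Field K] {ι : Type} {N : ℕ} (F : ι → MvPolynomial (Fin N) (𝓞 K))
    (L : Type) [Field L] [NumberField L] [Algebra K L] (S : Finset (HeightOneSpectrum (𝓞 L))) :
    Set (Fin N → L) :=
  {x | (∀ j, x j ∈ (S : Set (HeightOneSpectrum (𝓞 L))).integer L) ∧
    ∀ i, eval₂ ((algebraMap K L).comp (algebraMap (𝓞 K) K)) x (F i) = 0}

/-- (i): every nonconstant entire curve in `V(ℂ)` lies in `V'(ℂ)`. -/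
def EntireIn {K : Type} [Field K] {ι κ : Type} {N : ℕ} (σ : K →+* ℂ)
    (F : ι → MvPolynomial (Fin N) (𝓞 K)) (G : κ → MvPolynomial (Fin N) (𝓞 K)) : Prop :=
  ∀ g : ℂ → Fin N → ℂ, Differentiable ℂ g → (∀ t, g t ∈ Pts σ F) → (∃ t s, g t ≠ g s) →
    ∀ t, g t ∈ Pts σ G

/-- The function is given by a Laurent polynomial outside of `0`. -/
def IsLaurent (φ : ℂ → ℂ) : Prop :=
  ∃ (M : ℕ) (Q : Polynomial ℂ), ∀ t, t ≠ 0 → φ t * t ^ M = Q.eval t

/-- `v` is a map from the multiplicative group to the scheme given by the polynomials `F i`. -/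
def IsGm {K : Type} [Field K] {ι : Type} {N : ℕ} (σ : K →+* ℂ)
    (F : ι → MvPolynomial (Fin N) (𝓞 K)) (v : ℂ → Fin N → ℂ) : Prop :=
  (∀ j, IsLaurent fun t => v t j) ∧ ∀ t, t ≠ 0 → v t ∈ Pts σ F

/-- Every nonconstant map from the multiplicative group to `V(ℂ)` has its image in `V'(ℂ)`. -/
def GmIn {K : Type} [Field K] {ι κ : Type} {N : ℕ} (σ : K →+* ℂ)
    (F : ι → MvPolynomial (Fin N) (𝓞 K)) (G : κ → MvPolynomial (Fin N) (𝓞 K)) : Prop :=
  ∀ v : ℂ → Fin N → ℂ, IsGm σ F v → (∃ t s, t ≠ 0 ∧ s ≠ 0 ∧ v t ≠ v s) →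
    ∀ t, t ≠ 0 → v t ∈ Pts σ G

/-- Every point of `V(ℂ)` outside `V'` whose coordinates with index in `T` are also those of another
point of `V(ℂ)` is on the image of a nonconstant map from the multiplicative group to `V`. -/
def FibresCovered {K : Type} [Field K] {ι κ : Type} {N : ℕ} (σ : K →+* ℂ)
    (F : ι → MvPolynomial (Fin N) (𝓞 K)) (G : κ → MvPolynomial (Fin N) (𝓞 K))
    (T : Set (Fin N)) : Prop :=
  ∀ z ∈ Pts σ F, z ∉ Pts σ G → ∀ z' ∈ Pts σ F, (∀ i ∈ T, z' i = z i) → z' ≠ z →
    ∃ v : ℂ → Fin N → ℂ, IsGm σ F v ∧ v 1 = z ∧ ∃ t, t ≠ 0 ∧ v t ≠ z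

/-- Laurent polynomials in `t = (t 1, …, t r)` over the complex numbers. -/
abbrev Laurent (r : ℕ) : Type := AddMonoidAlgebra ℂ (Fin r → ℤ)

/-- The scalar product of an exponent and a direction. -/
noncomputable def dot {r : ℕ} (e : Fin r → ℤ) (l : Fin r → ℝ) : ℝ := ∑ i, (e i : ℝ) * l i

/-- In the direction `l`, the quotients `b i / g` are roots of `Q` up to an error of exponent `- A`:
for every exponent `e` of the coefficient of `Z ^ j` in `g ^ d * Q (Z / g) - ∏ i, (Z - b i)`, where
`d` is the degree of `Q`, there is an exponent `s` of `g` with `e · l ≤ (d - j) (s · l) - A`. -/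
def Approx {r : ℕ} (Q : Polynomial (Laurent r)) (g : Laurent r)
    (b : Fin Q.natDegree → Laurent r) (A : ℝ) (l : Fin r → ℝ) : Prop :=
  ∀ j, ∀ e ∈ ((Q.scaleRoots g - ∏ i, (Polynomial.X - Polynomial.C (b i))).coeff j).coeff.support,
    ∃ s ∈ g.coeff.support, dot e l ≤ ((Q.natDegree : ℝ) - j) * dot s l - A

/-- `Q` splits near the direction `l`: for all directions in a neighbourhood of `l` (which does not
depend on `A`), it has `deg Q` rational approximate roots up to an error of exponent `- A`, for every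
`A`. -/
def SplitsNear {r : ℕ} (Q : Polynomial (Laurent r)) (l : Fin r → ℝ) : Prop :=
  ∃ ε : ℝ, 0 < ε ∧ ∀ A : ℝ, ∃ (g : Laurent r) (b : Fin Q.natDegree → Laurent r), g ≠ 0 ∧
    ∀ l' : Fin r → ℝ, (∀ i, |l' i - l i| ≤ ε) → Approx Q g b A l'

/-- `Q` has no root in the field of rational functions: `Q (a / b) ≠ 0` for all `a`, `b ≠ 0`. -/
def NoRoot {r : ℕ} (Q : Polynomial (Laurent r)) : Prop :=
  ∀ a b : Laurent r, b ≠ 0 → (Q.scaleRoots b).eval a ≠ 0

/-- `Q` is a product of linear factors. -/
def IsProd {r : ℕ} (Q : Polynomial (Laurent r)) : Prop :=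
  ∃ b : Fin Q.natDegree → Laurent r, Q = ∏ i, (Polynomial.X - Polynomial.C (b i))

/-- The leading form of `δ` in the direction `l` is a monomial. -/
def LeadMonomial {r : ℕ} (δ : Laurent r) (l : Fin r → ℝ) : Prop :=
  ∃ e0 ∈ δ.coeff.support, ∀ e ∈ δ.coeff.support, e ≠ e0 → dot e l < dot e0 l

/-- `Q` is a product of monic polynomials `R i`, and for every `i` there is a Laurent polynomial in the
ideal generated by `R i` and its derivative, for example the discriminant of `R i`, the leading form of
which in the direction `l` is a monomial. -/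
def DiscMonomial {r : ℕ} (Q : Polynomial (Laurent r)) (l : Fin r → ℝ) : Prop :=
  ∃ (k : ℕ) (R : Fin k → Polynomial (Laurent r)), Q = ∏ i, R i ∧ ∀ i, (R i).Monic ∧
    ∃ (δ : Laurent r) (a b : Polynomial (Laurent r)),
      a * R i + b * Polynomial.derivative (R i) = Polynomial.C δ ∧ LeadMonomial δ l

/-- The polynomial `P (x, Z)` for `x = c t ^ (M a) = (c i ∏ j, t j ^ (M a i j))`. -/
noncomputable def pull {n r : ℕ} (M : ℕ) (a : Fin n → Fin r → ℤ) (c : Fin n → ℂ)
    (P : Polynomial (MvPolynomial (Fin n) ℂ)) : Polynomial (Laurent r) :=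
  P.map (MvPolynomial.aeval fun i => AddMonoidAlgebra.single (fun j => (M : ℤ) * a i j) (c i) :
    MvPolynomial (Fin n) ℂ →ₐ[ℂ] Laurent r).toRingHom

/-- `P (c t ^ (M a), Z)` splits near the direction `l`, or `M` is divisible by `(deg P)!` and `r = 1`,
or `M` is divisible by `(deg P)!` and the discriminants of the factors of `P (c t ^ a, Z)` have
monomials as leading forms in the direction `l`. -/
def Good {n r : ℕ} (M : ℕ) (a : Fin n → Fin r → ℤ) (c : Fin n → ℂ)
    (P : Polynomial (MvPolynomial (Fin n) ℂ)) (l : Fin r → ℝ) : Prop :=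
  SplitsNear (pull M a c P) l ∨
    P.natDegree.factorial ∣ M ∧ (r = 1 ∨ DiscMonomial (pull 1 a c P) l)

/-- A translate `{c t ^ a}` of a subtorus of dimension `r ≥ 1` of the `n`-dimensional torus (or the
torus itself) which contains a point of `X`. -/
structure Translate {n : ℕ} (X : Set (Fin n → ℂ)) where
  r : ℕ
  pos : 1 ≤ r
  le : r ≤ n
  a : Fin n → Fin r → ℤ
  span : ∀ j, Pi.single j 1 ∈ Submodule.span ℤ (Set.range a)
  c : Fin n → ℂ
  c_ne : ∀ i, c i ≠ 0
  hit : ∃ x ∈ X, ∃ t : Fin r → ℂ, (∀ j, t j ≠ 0) ∧ ∀ i, x i = c i * ∏ j, t j ^ a i j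

/-- The set `s` of indices is admissible for the translate: it is not empty, contains all `j` such that
`P j (c t ^ (M a), Z)` has no rational root, and no `j` such that it is a product of linear factors. -/
def Translate.Adm {n q : ℕ} {X : Set (Fin n → ℂ)} (T : Translate X) (M : ℕ)
    (P : Fin q → Polynomial (MvPolynomial (Fin n) ℂ)) (s : Set (Fin q)) : Prop :=
  s.Nonempty ∧ (∀ j, NoRoot (pull M T.a T.c (P j)) → j ∈ s) ∧
    ∀ j ∈ s, ¬ IsProd (pull M T.a T.c (P j))

/-- The direction `l` is bad: `l = 0`, or `Good` does not hold for any `j ∈ s`. -/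
def Translate.Bad {n q : ℕ} {X : Set (Fin n → ℂ)} (T : Translate X) (M : ℕ)
    (P : Fin q → Polynomial (MvPolynomial (Fin n) ℂ)) (s : Set (Fin q)) (l : Fin T.r → ℝ) : Prop :=
  l ≠ 0 → ∀ j ∈ s, ¬ Good M T.a T.c (P j) l

/-- The logarithm of the normalised absolute value at an infinite place or at a prime in `S`; the
product formula holds for these absolute values. -/
noncomputable def logAbs {L : Type} [Field L] [NumberField L]
    (S : Finset (HeightOneSpectrum (𝓞 L))) (v : InfinitePlace L ⊕ S) (x : L) : ℝ :=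
  match v with
  | Sum.inl v => v.mult * Real.log (v x)
  | Sum.inr w => Real.log (FinitePlace.mk w.1 x)

/-- The sum of the absolute values of the logarithms of the unit coordinates. -/
noncomputable def size {L : Type} [Field L] [NumberField L] {N n : ℕ} (U : Fin n → Fin N)
    (S : Finset (HeightOneSpectrum (𝓞 L))) (z : Fin N → L) : ℝ :=
  ∑ v : InfinitePlace L ⊕ S, ∑ i, |logAbs S v (z (U i))|

/-- The logarithms of the unit coordinates of the point `z` are equal to those of bad directions, with
sum zero, of a translate which meets `X`, up to `ε` times the size of the point. -/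
def NearBad {L : Type} [Field L] [NumberField L] {N n q : ℕ} (U : Fin n → Fin N)
    (X : Set (Fin n → ℂ)) (M : ℕ) (P : Fin q → Polynomial (MvPolynomial (Fin n) ℂ))
    (S : Finset (HeightOneSpectrum (𝓞 L))) (ε : ℝ) (z : Fin N → L) : Prop :=
  ∃ (T : Translate X) (s : Set (Fin q)), T.Adm M P s ∧ ∃ l : InfinitePlace L ⊕ S → Fin T.r → ℝ,
    (∀ v, T.Bad M P s (l v)) ∧ ∑ v, l v = 0 ∧
    ∀ v i, |logAbs S v (z (U i)) - ∑ j, (T.a i j : ℝ) * l v j| ≤ ε * size U S z

/-- If the sum of `k` bad directions of a translate which meets `X` is zero, then they are zero. -/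
def NoBadSums {n q : ℕ} (X : Set (Fin n → ℂ)) (M : ℕ)
    (P : Fin q → Polynomial (MvPolynomial (Fin n) ℂ)) (k : ℕ) : Prop :=
  ∀ (T : Translate X) (s : Set (Fin q)), T.Adm M P s → ∀ l : Fin k → Fin T.r → ℝ,
    (∀ i, T.Bad M P s (l i)) → ∑ i, l i = 0 → l = 0

/-- The leading form of `δ` in the direction `u` is a monomial: the scalar product with `u` takes its
maximum on the support of `δ` only once. -/
def LeadsAt {n : ℕ} (δ : MvPolynomial (Fin n) ℂ) (u : Fin n → ℝ) : Prop :=
  ∃ b0 ∈ δ.support, ∀ b ∈ δ.support, b ≠ b0 →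
    ∑ i, (b i : ℝ) * u i < ∑ i, (b0 i : ℝ) * u i

/-- There is a polynomial in `x` in the ideal generated by `P` and its derivative, for example the
discriminant of `P`, the leading form of which in the direction `u` is a monomial. -/
def DiscLeads {n : ℕ} (P : Polynomial (MvPolynomial (Fin n) ℂ)) (u : Fin n → ℝ) : Prop :=
  ∃ (δ : MvPolynomial (Fin n) ℂ) (A B : Polynomial (MvPolynomial (Fin n) ℂ)),
    A * P + B * Polynomial.derivative P = Polynomial.C δ ∧ LeadsAt δ u

/-- `P = Z ^ m - f` with `m ≥ 2`, and the leading form of `f` in the direction `u` is a monomial times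
an `m`-th power: there are a monomial `x ^ κ` and a polynomial `g ≠ 0` such that the terms of
`f - x ^ κ g ^ m` are smaller in the direction `u` than some term of `x ^ κ g ^ m`. -/
def PowLeads {n : ℕ} (P : Polynomial (MvPolynomial (Fin n) ℂ)) (u : Fin n → ℝ) : Prop :=
  ∃ (m : ℕ) (f g : MvPolynomial (Fin n) ℂ) (κ : Fin n →₀ ℕ), 2 ≤ m ∧
    P = Polynomial.X ^ m - Polynomial.C f ∧ g ≠ 0 ∧
    ∀ b ∈ (f - monomial κ 1 * g ^ m).support, ∃ s ∈ g.support,
      ∑ i, (b i : ℝ) * u i < ∑ i, (κ i : ℝ) * u i + m * ∑ i, (s i : ℝ) * u i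

/-- The leading form of the discriminant of `P` in the direction `u` is a monomial, or `n ≤ 2`,
`P = Z ^ m - f` and the leading form of `f` is a monomial times an `m`-th power. -/
def Leads {n : ℕ} (P : Polynomial (MvPolynomial (Fin n) ℂ)) (u : Fin n → ℝ) : Prop :=
  DiscLeads P u ∨ n ≤ 2 ∧ PowLeads P u

theorem dot_smul {r : ℕ} (e : Fin r → ℤ) (R : ℝ) (l : Fin r → ℝ) :
    dot e (R • l) = R * dot e l := by
  unfold dot
  rw [Finset.mul_sum]
  refine Finset.sum_congr rfl fun i _ => ?_
  rw [Pi.smul_apply, smul_eq_mul]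
  ring

theorem good_smul {n r : ℕ} (M : ℕ) (a : Fin n → Fin r → ℤ) (c : Fin n → ℂ)
    (P : Polynomial (MvPolynomial (Fin n) ℂ)) (l : Fin r → ℝ) (R : ℝ) (hR : 0 < R)
    (h : Good M a c P (R • l)) : Good M a c P l := by
  rcases h with ⟨ε, hε, h⟩ | ⟨h1, h2⟩
  · left
    refine ⟨ε / R, by positivity, fun A => ?_⟩
    obtain ⟨g, b, hg, h3⟩ := h (R * A)
    refine ⟨g, b, hg, fun l' hl' j e he => ?_⟩
    obtain ⟨s, hs, h4⟩ := h3 (R • l') (fun i => by
      have h5 := hl' i
      rw [le_div_iff₀ hR] at h5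
      have h6 : (R • l') i - (R • l) i = (l' i - l i) * R := by
        rw [Pi.smul_apply, Pi.smul_apply, smul_eq_mul, smul_eq_mul]
        ring
      rw [h6, abs_mul, abs_of_pos hR]
      exact h5) j e he
    refine ⟨s, hs, ?_⟩
    rw [dot_smul, dot_smul] at h4
    refine le_of_mul_le_mul_left ?_ hR
    linarith
  · right
    refine ⟨h1, h2.imp id ?_⟩
    rintro ⟨k, Q, hQ, h⟩
    refine ⟨k, Q, hQ, fun i => ⟨(h i).1, ?_⟩⟩
    obtain ⟨δ, x, y, hxy, e0, he0, h3⟩ := (h i).2
    refine ⟨δ, x, y, hxy, e0, he0, fun e he hne => ?_⟩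
    have h4 := h3 e he hne
    rw [dot_smul, dot_smul] at h4
    exact lt_of_mul_lt_mul_left h4 hR.le

/-- Let `V = {F = 0}` be an affine scheme of finite type over the ring of integers of a number field
`K`, and `V'` its closed subscheme given by `G`. Let `x = (z (U 1), …, z (U n))` be coordinates which
have no zeros on `V(ℂ)`, and let `z (J 1), …, z (J q)` be coordinates such that
`P j (x, z (J j)) = 0` on `V(ℂ)`, where the `P j` are arbitrary monic polynomials over `𝓞 K [x]`; let
`X` be the set of the points `x(z)` for `z` in `V(ℂ)` outside `V'`. Suppose that every point of `V(ℂ)`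
outside `V'` which is not determined by these coordinates is on the image of a nonconstant map from the
multiplicative group to `V`.

(0) Condition (i) implies (iii): every nonconstant map from the multiplicative group to `V` has its image
in `V'`.

Suppose that (iii) holds.

(A) For all `M ≥ 1`, all finite extensions `L` of `K`, all finite sets `S` of primes of `L` and all
`ε > 0`, all but finitely many points of `V(O_S) ∖ V'(O_S)` are `NearBad`: the vectors of the logarithms
of the absolute values of `x` at the infinite places and at the places in `S` are equal to those of bad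
directions with sum zero of a translate of a subtorus which meets `X`, up to `ε` times the size of the
point.

(B) If, for some `M ≥ 1`, sums of `k` nonzero bad directions do not vanish, then `V(O_S) ∖ V'(O_S)` is
finite for all finite extensions `L` of `K` and all `S` such that there are at most `k` infinite places
and primes in `S`.

(C) If, for all `j` and all `u 1, …, u k` with sum zero which are not all zero, `Leads` holds for `P j`
and some `u i ≠ 0`, then `V(O_S) ∖ V'(O_S)` is finite for all finite extensions `L` of `K` and all `S`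
such that there are at most `k` infinite places and primes in `S`. For example, `k = 2`, `n = 2` and the
Newton polygons of the discriminants of the `P j` have no parallel edges. -/
theorem result {K : Type} [Field K] [NumberField K] {ι κ : Type} [Finite ι] {N n q : ℕ}
    (σ : K →+* ℂ) (F : ι → MvPolynomial (Fin N) (𝓞 K)) (G : κ → MvPolynomial (Fin N) (𝓞 K))
    (U : Fin n → Fin N) (J : Fin q → Fin N)
    (P : Fin q → Polynomial (MvPolynomial (Fin n) (𝓞 K))) (hP : ∀ j, (P j).Monic)
    (hU : ∀ z ∈ Pts σ F, ∀ i, z (U i) ≠ 0)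
    (hJ : ∀ z ∈ Pts σ F, ∀ j,
      (P j).eval₂ (eval₂Hom (σ.comp (algebraMap (𝓞 K) K)) fun i => z (U i)) (z (J j)) = 0)
    (hfib : FibresCovered σ F G (Set.range U ∪ Set.range J))
    (X : Set (Fin n → ℂ)) (hX : X = {x | ∃ z ∈ Pts σ F, z ∉ Pts σ G ∧ ∀ i, x i = z (U i)})
    (Q : Fin q → Polynomial (MvPolynomial (Fin n) ℂ))
    (hQ : Q = fun j => (P j).map (MvPolynomial.map (σ.comp (algebraMap (𝓞 K) K)))) :
    (EntireIn σ F G → GmIn σ F G) ∧
    (GmIn σ F G →
      (∀ M : ℕ, 1 ≤ M → ∀ (L : Type) [Field L] [NumberField L] [Algebra K L]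
        (S : Finset (HeightOneSpectrum (𝓞 L))) (ε : ℝ), 0 < ε →
          {z ∈ IntPts F L S \ IntPts G L S | ¬ NearBad U X M Q S ε z}.Finite) ∧
      (∀ M : ℕ, 1 ≤ M → ∀ k : ℕ, NoBadSums X M Q k →
        ∀ (L : Type) [Field L] [NumberField L] [Algebra K L]
          (S : Finset (HeightOneSpectrum (𝓞 L))), Fintype.card (InfinitePlace L) + S.card ≤ k →
            (IntPts F L S \ IntPts G L S).Finite) ∧
      ∀ k : ℕ, (∀ j, ∀ u : Fin k → Fin n → ℝ, ∑ i, u i = 0 → u ≠ 0 →
          ∃ i, u i ≠ 0 ∧ Leads (Q j) (u i)) →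
        ∀ (L : Type) [Field L] [NumberField L] [Algebra K L]
          (S : Finset (HeightOneSpectrum (𝓞 L))), Fintype.card (InfinitePlace L) + S.card ≤ k →
            (IntPts F L S \ IntPts G L S).Finite) := by
  classical
  subst hX
  subst hQ
  have e3 : GmIn σ F G ↔ Pool.Agent.W235.RM.GmCurvesIn σ F G := by
    constructor
    · intro h v hv hF hnc l t ht
      exact h v ⟨hv, fun t ht i => hF i t ht⟩ hnc t ht l
    · intro h v hv hnc t ht l
      exact h v hv.1 (fun i t ht => hv.2 t ht i) hnc l t ht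
  constructor
  · intro h
    have e1 : Pool.Agent.W235.RM.EntireCurvesIn σ F G := fun g hg hF hnc z l => h g hg hF hnc z l
    have h1 := Pool.Agent.W235.RM.exp_of_entire σ F G e1
    exact e3.2 (((Pool.Agent.W235.RM.tfae σ F G).out 0 1).1 h1)
  intro hGm
  have hal : Pool.Agent.N754.LT.Alone σ F G (Finset.univ.image U ∪ Finset.univ.image J) := by
    intro z z' hz hz' hzU hG
    by_contra hne
    obtain ⟨v, hv1, hv3, t, ht, hv4⟩ := hfib z hz (fun h => by
      obtain ⟨l, hl⟩ := hG
      exact hl (h l)) z' hz' (fun i hi => by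
        apply hzU
        rcases hi with ⟨l, rfl⟩ | ⟨l, rfl⟩
        · exact Finset.mem_union_left _ (Finset.mem_image_of_mem _ (Finset.mem_univ _))
        · exact Finset.mem_union_right _ (Finset.mem_image_of_mem _ (Finset.mem_univ _))) hne
    obtain ⟨l, hl⟩ := hG
    apply hl
    rw [← hv3]
    exact (e3.1 hGm) v hv1.1 (fun i t ht => hv1.2 t ht i)
      ⟨t, 1, ht, one_ne_zero, by rw [hv3]; exact hv4⟩ l 1 one_ne_zero
  have hLaur : ¬ Pool.Agent.W235.RM.HasLaurent F G := fun h2 =>
    Pool.Agent.W235.RM.not_gm_of_hasLaurent σ F G h2 (e3.1 hGm)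
  -- sequences
  have key : ∀ M : ℕ, 1 ≤ M → ∀ (L : Type) [Field L] [NumberField L] [Algebra K L]
      (S : Finset (HeightOneSpectrum (𝓞 L))) (A : Set (Fin N → L)), A ⊆ IntPts F L S \ IntPts G L S →
      A.Infinite → ∃ (T : Translate {x | ∃ z ∈ Pts σ F, z ∉ Pts σ G ∧ ∀ i, x i = z (U i)})
        (s : Set (Fin q)) (l : InfinitePlace L ⊕ S → Fin T.r → ℝ),
        T.Adm M (fun j => (P j).map (MvPolynomial.map (σ.comp (algebraMap (𝓞 K) K)))) s ∧
        (∀ v, T.Bad M (fun j => (P j).map (MvPolynomial.map (σ.comp (algebraMap (𝓞 K) K)))) s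
          (l v)) ∧ ∑ v, l v = 0 ∧
        ∀ δ : ℝ, 0 < δ → ∃ z ∈ A, 1 ≤ size U S z ∧
          ∀ v i, |logAbs S v (z (U i)) - (1 + size U S z) * ∑ j, (T.a i j : ℝ) * l v j| ≤
            δ * (1 + size U S z) := by
    intro M hM L _ _ _ S A hA hinf
    let en := hinf.natEmbedding
    obtain ⟨r, a, c, s, l, h1, h2, h3, h4, h5, h6, h7, h8, h9, h10, h11, h12⟩ :=
      Pool.Agent.H434.GM.key_dirQ σ F G U J P hP hU hJ M hM hal hLaur L S (fun t => (en t).1)
        (fun t t' h => en.injective (Subtype.ext h)) (fun t => hA (en t).2)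
    refine ⟨⟨r, h1, h2, a, h3, c, h4, ?_⟩, s, l, ⟨h6, h7, h8⟩, ?_, h10, fun δ hδ => ?_⟩
    · obtain ⟨x, ⟨z, hz, ⟨l, hl⟩, hx⟩, ht⟩ := h5
      exact ⟨x, ⟨z, hz, fun h => hl (h l), hx⟩, ht⟩
    · intro v hv j hj hg
      exact h9 v hv j hj (Pool.Agent.H434.AJ.GoodAt.splits hM ((hP j).map _) hv hg)
    · obtain ⟨t, g1, g2⟩ := ((h12 δ hδ).and (h11.eventually_ge_atTop 2)).exists
      refine ⟨(en t).1, (en t).2, ?_, fun v i => g1 v i⟩
      have g3 : 2 ≤ 1 + size U S (en t).1 := g2
      linarith
  have hB : ∀ M : ℕ, 1 ≤ M → ∀ k : ℕ,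
      NoBadSums {x | ∃ z ∈ Pts σ F, z ∉ Pts σ G ∧ ∀ i, x i = z (U i)} M
        (fun j => (P j).map (MvPolynomial.map (σ.comp (algebraMap (𝓞 K) K)))) k →
        ∀ (L : Type) [Field L] [NumberField L] [Algebra K L]
          (S : Finset (HeightOneSpectrum (𝓞 L))), Fintype.card (InfinitePlace L) + S.card ≤ k →
            (IntPts F L S \ IntPts G L S).Finite := by
    intro M hM k hk L _ _ _ S hcard
    by_contra hinf
    obtain ⟨T, s, l, h1, h2, h3, h5⟩ := key M hM L S _ (fun P hP => hP) hinf
    have hl : l = 0 := by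
      have hc : Fintype.card (InfinitePlace L ⊕ S) ≤ Fintype.card (Fin k) := by
        rw [Fintype.card_sum, Fintype.card_fin, Fintype.card_coe]
        exact hcard
      obtain ⟨i⟩ := Function.Embedding.nonempty_of_card_le hc
      have h8 := hk T s h1 (Function.extend i l 0) (fun j => by
        by_cases hj : ∃ v, i v = j
        · obtain ⟨v, rfl⟩ := hj
          rw [i.injective.extend_apply]
          exact h2 v
        · rw [Function.extend_apply' _ _ _ hj]
          intro h0
          exact absurd rfl h0) (by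
        rw [← h3]
        symm
        refine Finset.sum_of_injOn i (fun a _ b _ h => i.injective h) (fun _ _ =>
          Finset.mem_coe.2 (Finset.mem_univ _)) (fun j _ hj => ?_) (fun v _ => ?_)
        · rw [Function.extend_apply']
          · rfl
          · rintro ⟨v, rfl⟩
            exact hj ⟨v, Finset.mem_coe.2 (Finset.mem_univ _), rfl⟩
        · rw [i.injective.extend_apply])
      funext v
      have h9 := congrFun h8 (i v)
      rw [i.injective.extend_apply] at h9
      exact h9
    let c : ℝ := Fintype.card (InfinitePlace L ⊕ S) * n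
    have hc : 0 ≤ c := by positivity
    obtain ⟨z, hz, h6, h7⟩ := h5 (1 / (2 * c + 1)) (by positivity)
    have h8 : size U S z ≤ c * (1 / (2 * c + 1) * (1 + size U S z)) := by
      have h9 : ∀ v : InfinitePlace L ⊕ S, ∑ i, |logAbs S v (z (U i))| ≤
          n * (1 / (2 * c + 1) * (1 + size U S z)) := by
        intro v
        have h10 : ∀ i ∈ (Finset.univ : Finset (Fin n)), |logAbs S v (z (U i))| ≤
            1 / (2 * c + 1) * (1 + size U S z) := by
          intro i _
          have h11 := h7 v i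
          rw [hl] at h11
          simpa using h11
        have h12 := Finset.sum_le_card_nsmul _ _ _ h10
        rwa [Finset.card_univ, Fintype.card_fin, nsmul_eq_mul] at h12
      have h13 := Finset.sum_le_card_nsmul (Finset.univ : Finset (InfinitePlace L ⊕ S)) _ _
        fun v _ => h9 v
      rw [Finset.card_univ, nsmul_eq_mul] at h13
      show ∑ v : InfinitePlace L ⊕ S, ∑ i, |logAbs S v (z (U i))| ≤ _
      refine h13.trans (le_of_eq ?_)
      simp only [c]
      ring
    have h9 : size U S z * (2 * c + 1) ≤ c * (1 + size U S z) := by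
      have h11 : 0 < 2 * c + 1 := by positivity
      have h12 : c * (1 / (2 * c + 1) * (1 + size U S z)) =
          (c * (1 + size U S z)) / (2 * c + 1) := by
        ring
      rw [h12, le_div_iff₀ h11] at h8
      exact h8
    nlinarith
  refine ⟨?_, hB, ?_⟩
  · intro M hM L _ _ _ S ε hε
    by_contra hinf
    obtain ⟨T, s, l, h1, h2, h3, h5⟩ := key M hM L S _ (fun P hP => hP.1) hinf
    obtain ⟨z, hz, h6, h7⟩ := h5 (ε / 2) (by positivity)
    have hR0 : 0 < 1 + size U S z := by linarith
    apply hz.2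
    refine ⟨T, s, h1, fun v => (1 + size U S z) • l v, fun v hv j hj hg => ?_, ?_, fun v i => ?_⟩
    · refine h2 v (fun h0 => hv ?_) j hj (good_smul _ _ _ _ _ _ hR0 hg)
      show (1 + size U S z) • l v = 0
      rw [h0, smul_zero]
    · rw [← Finset.smul_sum, h3, smul_zero]
    · have h8 : ∑ j, (T.a i j : ℝ) * ((1 + size U S z) • l v) j =
          (1 + size U S z) * ∑ j, (T.a i j : ℝ) * l v j := by
        rw [Finset.mul_sum]
        refine Finset.sum_congr rfl fun j _ => ?_
        rw [Pi.smul_apply, smul_eq_mul]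
        ring
      rw [h8]
      refine (h7 v i).trans ?_
      have h10 : ε / 2 * (1 + size U S z) ≤ ε / 2 * (2 * size U S z) :=
        mul_le_mul_of_nonneg_left (by linarith) (by positivity)
      linarith
  · intro k hD L _ _ _ S hcard
    let M : ℕ := ∏ j, ((P j).map (MvPolynomial.map
      (σ.comp (algebraMap (𝓞 K) K)))).natDegree.factorial
    have hM : 1 ≤ M := Finset.one_le_prod' fun j _ => Nat.factorial_pos _
    refine hB M hM k ?_ L S hcard
    intro T s hs l hl hsum
    by_contra hne
    obtain ⟨j, hj⟩ := hs.1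
    obtain ⟨i0, hi0⟩ : ∃ i0, l i0 ≠ 0 := by
      by_contra hcon
      push Not at hcon
      exact hne (funext hcon)
    obtain ⟨i, hi, h⟩ := hD j (fun i i' => ∑ j', (T.a i' j' : ℝ) * l i j') (by
      funext i'
      rw [Finset.sum_apply, Finset.sum_comm]
      simp only [← Finset.mul_sum]
      refine Finset.sum_eq_zero fun j' _ => ?_
      have h1 := congrFun hsum j'
      rw [Finset.sum_apply] at h1
      rw [h1, Pi.zero_apply, mul_zero]) (by
      intro h0
      exact Pool.Agent.H434.AJ.push_ne T.a T.span (l i0) hi0 (congrFun h0 i0))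
    have hli : l i ≠ 0 := by
      intro h0
      apply hi
      funext i'
      show ∑ j', (T.a i' j' : ℝ) * l i j' = 0
      rw [h0]
      exact Finset.sum_eq_zero fun j' _ => mul_zero _
    exact hl i hli j hj (Pool.Agent.H434.AJ.goodAt_lead M hM T.pos T.le T.a T.span T.c T.c_ne (l i) _
      ((hP j).map _) (Finset.dvd_prod_of_mem (fun j => ((P j).map (MvPolynomial.map
        (σ.comp (algebraMap (𝓞 K) K)))).natDegree.factorial) (Finset.mem_univ j)) h)

end Pool.Agent.Results.MP_e97a4d_nt.BadDirectionsAllCovers
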