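import Mathlib
import Pool.Agent.H434.N13
import Pool.Agent.H434.P9

/-!
MP_e97a4d_nt, Q1: the Bombieri–Lang–Vojta equivalence for affine schemes with a map to a ramified cover
of a torus with arbitrary monodromy, given by roots of monic polynomials over the coordinate ring of
the torus, under a condition on the leading forms of their discriminants. It holds, for example, for
covers `z ^ m = f(x)` of the two-dimensional torus if the leading forms of `f` in the directions of a
closed half plane are monomials times `m`-th powers, and for covers by roots of two irreducible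
polynomials `P 1, P 2` which are ramified over the torus, if the Newton polygons of the discriminants
of `P 1` and `P 2` have no common outer normals.
-/

set_option autoImplicit false

namespace Pool.Agent.Results.MP_e97a4d_nt.CoversByDiscriminants

open MvPolynomial NumberField IsDedekindDomain

/-- The complex points of the affine scheme over `𝓞 K` given by the polynomials `F i`. -/
def Pts {K : Type} [Field K] {ι : Type} {N : ℕ} (σ : K →+* ℂ)
    (F : ι → MvPolynomial (Fin N) (𝓞 K)) : Set (Fin N → ℂ) :=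
  {z | ∀ i, eval₂ (σ.comp (algebraMap (𝓞 K) K)) z (F i) = 0}

/-- The `S`-integral points over `L` of the affine scheme given by the polynomials `F i`. -/
def IntPts {K : Type} [Field K] {ι : Type} {N : ℕ} (F : ι → MvPolynomial (Fin N) (𝓞 K))
    (L : Type) [Field L] [NumberField L] [Algebra K L] (S : Set (HeightOneSpectrum (𝓞 L))) :
    Set (Fin N → L) :=
  {x | (∀ j, x j ∈ S.integer L) ∧
    ∀ i, eval₂ ((algebraMap K L).comp (algebraMap (𝓞 K) K)) x (F i) = 0}

/-- (i): every nonconstant entire curve in `V(ℂ)` lies in `V'(ℂ)`. -/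
def EntireIn {K : Type} [Field K] {ι κ : Type} {N : ℕ} (σ : K →+* ℂ)
    (F : ι → MvPolynomial (Fin N) (𝓞 K)) (G : κ → MvPolynomial (Fin N) (𝓞 K)) : Prop :=
  ∀ g : ℂ → Fin N → ℂ, Differentiable ℂ g → (∀ t, g t ∈ Pts σ F) → (∃ t s, g t ≠ g s) →
    ∀ t, g t ∈ Pts σ G

/-- (ii): `V(O_S) ∖ V'(O_S)` is finite for all finite extensions `L` of `K` and all finite `S`. -/
def IntegralIn {K : Type} [Field K] {ι κ : Type} {N : ℕ}
    (F : ι → MvPolynomial (Fin N) (𝓞 K)) (G : κ → MvPolynomial (Fin N) (𝓞 K)) : Prop :=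
  ∀ (L : Type) [Field L] [NumberField L] [Algebra K L] (S : Set (HeightOneSpectrum (𝓞 L))),
    S.Finite → (IntPts F L S \ IntPts G L S).Finite

/-- The function is given by a Laurent polynomial outside of `0`. -/
def IsLaurent (φ : ℂ → ℂ) : Prop :=
  ∃ (M : ℕ) (Q : Polynomial ℂ), ∀ t, t ≠ 0 → φ t * t ^ M = Q.eval t

/-- `v` is a map from the multiplicative group to the scheme given by the polynomials `F i`. -/
def IsGm {K : Type} [Field K] {ι : Type} {N : ℕ} (σ : K →+* ℂ)
    (F : ι → MvPolynomial (Fin N) (𝓞 K)) (v : ℂ → Fin N → ℂ) : Prop :=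
  (∀ j, IsLaurent fun t => v t j) ∧ ∀ t, t ≠ 0 → v t ∈ Pts σ F

/-- Every nonconstant map from the multiplicative group to `V(ℂ)` has its image in `V'(ℂ)`. -/
def GmIn {K : Type} [Field K] {ι κ : Type} {N : ℕ} (σ : K →+* ℂ)
    (F : ι → MvPolynomial (Fin N) (𝓞 K)) (G : κ → MvPolynomial (Fin N) (𝓞 K)) : Prop :=
  ∀ v : ℂ → Fin N → ℂ, IsGm σ F v → (∃ t s, t ≠ 0 ∧ s ≠ 0 ∧ v t ≠ v s) →
    ∀ t, t ≠ 0 → v t ∈ Pts σ G

/-- Every point of `V(ℂ)` outside `V'` whose coordinates with index in `T` are also those of another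
point of `V(ℂ)` is on the image of a nonconstant map from the multiplicative group to `V`. -/
def FibresCovered {K : Type} [Field K] {ι κ : Type} {N : ℕ} (σ : K →+* ℂ)
    (F : ι → MvPolynomial (Fin N) (𝓞 K)) (G : κ → MvPolynomial (Fin N) (𝓞 K))
    (T : Set (Fin N)) : Prop :=
  ∀ z ∈ Pts σ F, z ∉ Pts σ G → ∀ z' ∈ Pts σ F, (∀ i ∈ T, z' i = z i) → z' ≠ z →
    ∃ v : ℂ → Fin N → ℂ, IsGm σ F v ∧ v 1 = z ∧ ∃ t, t ≠ 0 ∧ v t ≠ z

/-- Laurent polynomials in `t = (t 1, …, t r)` over the complex numbers. -/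
abbrev Laurent (r : ℕ) : Type := AddMonoidAlgebra ℂ (Fin r → ℤ)

/-- The scalar product of an exponent and a direction. -/
noncomputable def dot {r : ℕ} (e : Fin r → ℤ) (l : Fin r → ℝ) : ℝ := ∑ i, (e i : ℝ) * l i

/-- In the direction `l`, the quotients `b i / g` are roots of `Q` up to an error of exponent `- A`:
for every exponent `e` of the coefficient of `Z ^ j` in `g ^ d * Q (Z / g) - ∏ i, (Z - b i)`, where
`d` is the degree of `Q`, there is an exponent `s` of `g` with `e · l ≤ (d - j) (s · l) - A`. -/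
def Approx {r : ℕ} (Q : Polynomial (Laurent r)) (g : Laurent r)
    (b : Fin Q.natDegree → Laurent r) (A : ℝ) (l : Fin r → ℝ) : Prop :=
  ∀ j, ∀ e ∈ ((Q.scaleRoots g - ∏ i, (Polynomial.X - Polynomial.C (b i))).coeff j).coeff.support,
    ∃ s ∈ g.coeff.support, dot e l ≤ ((Q.natDegree : ℝ) - j) * dot s l - A

/-- `Q` splits near the direction `l`: for all directions in a neighbourhood of `l` (which does not
depend on `A`), it has `deg Q` rational approximate roots up to an error of exponent `- A`, for every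
`A`. -/
def SplitsNear {r : ℕ} (Q : Polynomial (Laurent r)) (l : Fin r → ℝ) : Prop :=
  ∃ ε : ℝ, 0 < ε ∧ ∀ A : ℝ, ∃ (g : Laurent r) (b : Fin Q.natDegree → Laurent r), g ≠ 0 ∧
    ∀ l' : Fin r → ℝ, (∀ i, |l' i - l i| ≤ ε) → Approx Q g b A l'

/-- `Q` has no root in the field of rational functions: `Q (a / b) ≠ 0` for all `a`, `b ≠ 0`. -/
def NoRoot {r : ℕ} (Q : Polynomial (Laurent r)) : Prop :=
  ∀ a b : Laurent r, b ≠ 0 → (Q.scaleRoots b).eval a ≠ 0

/-- `Q` is a product of linear factors. -/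
def IsProd {r : ℕ} (Q : Polynomial (Laurent r)) : Prop :=
  ∃ b : Fin Q.natDegree → Laurent r, Q = ∏ i, (Polynomial.X - Polynomial.C (b i))

/-- The leading form of `δ` in the direction `l` is a monomial. -/
def LeadMonomial {r : ℕ} (δ : Laurent r) (l : Fin r → ℝ) : Prop :=
  ∃ e0 ∈ δ.coeff.support, ∀ e ∈ δ.coeff.support, e ≠ e0 → dot e l < dot e0 l

/-- `Q` is a product of monic polynomials `R i`, and for every `i` there is a Laurent polynomial in the
ideal generated by `R i` and its derivative, for example the discriminant of `R i`, the leading form of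
which in the direction `l` is a monomial. -/
def DiscMonomial {r : ℕ} (Q : Polynomial (Laurent r)) (l : Fin r → ℝ) : Prop :=
  ∃ (k : ℕ) (R : Fin k → Polynomial (Laurent r)), Q = ∏ i, R i ∧ ∀ i, (R i).Monic ∧
    ∃ (δ : Laurent r) (a b : Polynomial (Laurent r)),
      a * R i + b * Polynomial.derivative (R i) = Polynomial.C δ ∧ LeadMonomial δ l

/-- The polynomial `P (x, Z)` for `x = c t ^ (M a) = (c i ∏ j, t j ^ (M a i j))`. -/
noncomputable def pull {n r : ℕ} (M : ℕ) (a : Fin n → Fin r → ℤ) (c : Fin n → ℂ)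
    (P : Polynomial (MvPolynomial (Fin n) ℂ)) : Polynomial (Laurent r) :=
  P.map (MvPolynomial.aeval fun i => AddMonoidAlgebra.single (fun j => (M : ℤ) * a i j) (c i) :
    MvPolynomial (Fin n) ℂ →ₐ[ℂ] Laurent r).toRingHom

/-- `P (c t ^ (M a), Z)` splits near the direction `l`, or `M` is divisible by `(deg P)!` and `r = 1`,
or `M` is divisible by `(deg P)!` and the discriminants of the factors of `P (c t ^ a, Z)` have
monomials as leading forms in the direction `l`. -/
def Good {n r : ℕ} (M : ℕ) (a : Fin n → Fin r → ℤ) (c : Fin n → ℂ)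
    (P : Polynomial (MvPolynomial (Fin n) ℂ)) (l : Fin r → ℝ) : Prop :=
  SplitsNear (pull M a c P) l ∨
    P.natDegree.factorial ∣ M ∧ (r = 1 ∨ DiscMonomial (pull 1 a c P) l)

/-- There is some `M ≥ 1` such that the following holds for every translate `{c t ^ a}` of a subtorus
of positive dimension (or of the torus itself) which contains a point of `X`. For every nonempty set
`s` which contains all `j` such that `P j (c t ^ (M a), Z)` has no rational root, and no `j` such that
it is a product of linear factors, there is a linear form `μ` such that for every direction `l ≠ 0`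
with `μ l ≥ 0` there is some `j` in `s` such that `Good` holds for `P j` and `l`. -/
def TameOn {q n : ℕ} (X : Set (Fin n → ℂ)) (P : Fin q → Polynomial (MvPolynomial (Fin n) ℂ)) :
    Prop :=
  ∃ M : ℕ, 1 ≤ M ∧ ∀ r : ℕ, 1 ≤ r → r ≤ n → ∀ (a : Fin n → Fin r → ℤ) (c : Fin n → ℂ),
    (∀ j, Pi.single j 1 ∈ Submodule.span ℤ (Set.range a)) → (∀ i, c i ≠ 0) →
    (∃ x ∈ X, ∃ t : Fin r → ℂ, (∀ j, t j ≠ 0) ∧ ∀ i, x i = c i * ∏ j, t j ^ a i j) →
    ∀ s : Set (Fin q), s.Nonempty → (∀ j, NoRoot (pull M a c (P j)) → j ∈ s) →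
      (∀ j ∈ s, ¬ IsProd (pull M a c (P j))) →
      ∃ μ : Fin r → ℝ, ∀ l : Fin r → ℝ, l ≠ 0 → 0 ≤ ∑ i, μ i * l i → ∃ j ∈ s, Good M a c (P j) l

/-- The leading form of `δ` in the direction `u` is a monomial: the scalar product with `u` takes its
maximum on the support of `δ` only once. -/
def LeadsAt {n : ℕ} (δ : MvPolynomial (Fin n) ℂ) (u : Fin n → ℝ) : Prop :=
  ∃ b0 ∈ δ.support, ∀ b ∈ δ.support, b ≠ b0 →
    ∑ i, (b i : ℝ) * u i < ∑ i, (b0 i : ℝ) * u i

/-- There is a polynomial in `x` in the ideal generated by `P` and its derivative, for example the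
discriminant of `P`, the leading form of which in the direction `u` is a monomial. -/
def DiscLeads {n : ℕ} (P : Polynomial (MvPolynomial (Fin n) ℂ)) (u : Fin n → ℝ) : Prop :=
  ∃ (δ : MvPolynomial (Fin n) ℂ) (A B : Polynomial (MvPolynomial (Fin n) ℂ)),
    A * P + B * Polynomial.derivative P = Polynomial.C δ ∧ LeadsAt δ u

/-- `P = Z ^ m - f` with `m ≥ 2`, and the leading form of `f` in the direction `u` is a monomial times
an `m`-th power: there are a monomial `x ^ κ` and a polynomial `g ≠ 0` such that the terms of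
`f - x ^ κ g ^ m` are smaller in the direction `u` than some term of `x ^ κ g ^ m`. -/
def PowLeads {n : ℕ} (P : Polynomial (MvPolynomial (Fin n) ℂ)) (u : Fin n → ℝ) : Prop :=
  ∃ (m : ℕ) (f g : MvPolynomial (Fin n) ℂ) (κ : Fin n →₀ ℕ), 2 ≤ m ∧
    P = Polynomial.X ^ m - Polynomial.C f ∧ g ≠ 0 ∧
    ∀ b ∈ (f - monomial κ 1 * g ^ m).support, ∃ s ∈ g.support,
      ∑ i, (b i : ℝ) * u i < ∑ i, (κ i : ℝ) * u i + m * ∑ i, (s i : ℝ) * u i

/-- The leading form of the discriminant of `P` in the direction `u` is a monomial, or `n ≤ 2`,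
`P = Z ^ m - f` and the leading form of `f` is a monomial times an `m`-th power. -/
def Leads {n : ℕ} (P : Polynomial (MvPolynomial (Fin n) ℂ)) (u : Fin n → ℝ) : Prop :=
  DiscLeads P u ∨ n ≤ 2 ∧ PowLeads P u

/-- `P (t ^ N, Z)` has no root in `ℂ(t)`, for all `N ≥ 1`. If `n ≥ 3` there must be no roots also for
the restrictions to the translates of subtori of dimension `2, …, n - 1` which contain a point of
`X`. -/
def NoRoots {n : ℕ} (X : Set (Fin n → ℂ)) (P : Polynomial (MvPolynomial (Fin n) ℂ)) : Prop :=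
  (∀ N : ℕ, 1 ≤ N → NoRoot (pull N (fun i => Pi.single i 1) (fun _ => 1) P)) ∧
  ∀ r : ℕ, 2 ≤ r → r < n → ∀ (a : Fin n → Fin r → ℤ) (c : Fin n → ℂ),
    (∀ j, Pi.single j 1 ∈ Submodule.span ℤ (Set.range a)) → (∀ i, c i ≠ 0) →
    (∃ x ∈ X, ∃ t : Fin r → ℂ, (∀ j, t j ≠ 0) ∧ ∀ i, x i = c i * ∏ j, t j ^ a i j) →
    ∀ N : ℕ, 1 ≤ N → NoRoot (pull N a c P)

/-- The covers are ramified in different directions: for every nonempty set `s` which contains all `j`
such that `NoRoots` holds for `P j`, there is a linear form `μ` such that for every direction `u ≠ 0`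
with `μ u ≥ 0` there is some `j` in `s` such that `Leads` holds for `P j` and `u`. -/
def Separated {q n : ℕ} (X : Set (Fin n → ℂ)) (P : Fin q → Polynomial (MvPolynomial (Fin n) ℂ)) :
    Prop :=
  ∀ s : Set (Fin q), s.Nonempty → (∀ j, NoRoots X (P j) → j ∈ s) →
    ∃ μ : Fin n → ℝ, ∀ u : Fin n → ℝ, u ≠ 0 → 0 ≤ ∑ i, μ i * u i → ∃ j ∈ s, Leads (P j) u

/-- Let `V = {F = 0}` be an affine scheme of finite type over the ring of integers of a number field
`K`, and `V'` its closed subscheme given by `G`. Let `x = (z (U 1), …, z (U n))` be coordinates which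
have no zeros on `V(ℂ)`, and let `z (J 1), …, z (J q)` be coordinates such that
`P j (x, z (J j)) = 0` on `V(ℂ)`, where the `P j` are monic polynomials over `𝓞 K [x]` which satisfy
`TameOn` or `Separated` for the set `X` of the points `x(z)`, `z` in `V(ℂ)` outside `V'`. Suppose that
every point of `V(ℂ)` outside `V'` which is not determined by these coordinates is on the image of a
nonconstant map from the multiplicative group to `V`. Then the following are equivalent: every entire
curve in `V` lies in `V'`; the sets `V(O_S) ∖ V'(O_S)` are finite, for all finite extensions of `K` and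
all `S`; every nonconstant map from the multiplicative group to `V` has its image in `V'`. -/
theorem result {K : Type} [Field K] [NumberField K] {ι κ : Type} [Finite ι] {N n q : ℕ}
    (σ : K →+* ℂ) (F : ι → MvPolynomial (Fin N) (𝓞 K)) (G : κ → MvPolynomial (Fin N) (𝓞 K))
    (U : Fin n → Fin N) (J : Fin q → Fin N)
    (P : Fin q → Polynomial (MvPolynomial (Fin n) (𝓞 K))) (hP : ∀ j, (P j).Monic)
    (hU : ∀ z ∈ Pts σ F, ∀ i, z (U i) ≠ 0)
    (hJ : ∀ z ∈ Pts σ F, ∀ j,
      (P j).eval₂ (eval₂Hom (σ.comp (algebraMap (𝓞 K) K)) fun i => z (U i)) (z (J j)) = 0)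
    (X : Set (Fin n → ℂ)) (hX : X = {x | ∃ z ∈ Pts σ F, z ∉ Pts σ G ∧ ∀ i, x i = z (U i)})
    (hT : TameOn X (fun j => (P j).map (MvPolynomial.map (σ.comp (algebraMap (𝓞 K) K)))) ∨
      Separated X fun j => (P j).map (MvPolynomial.map (σ.comp (algebraMap (𝓞 K) K))))
    (hfib : FibresCovered σ F G (Set.range U ∪ Set.range J)) :
    List.TFAE [EntireIn σ F G, IntegralIn F G, GmIn σ F G] := by
  classical
  subst hX
  have hT : TameOn {x | ∃ z ∈ Pts σ F, z ∉ Pts σ G ∧ ∀ i, x i = z (U i)}
      fun j => (P j).map (MvPolynomial.map (σ.comp (algebraMap (𝓞 K) K))) := by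
    rcases hT with h | h
    · exact h
    · exact Pool.Agent.H434.AJ.tame_of_sets _ _ (fun j => (hP j).map _) h
  have e1 : EntireIn σ F G ↔ Pool.Agent.W235.RM.EntireCurvesIn σ F G := by
    constructor
    · intro h g hg hF hnc z l
      exact h g hg hF hnc z l
    · intro h g hg hF hnc z l
      exact h g hg hF hnc z l
  have e2 : IntegralIn F G ↔ Pool.Agent.H159R3.Exp.FinitelyManyIntegral F G := Iff.rfl
  have e3 : GmIn σ F G ↔ Pool.Agent.W235.RM.GmCurvesIn σ F G := by
    constructor
    · intro h v hv hF hnc l t ht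
      exact h v ⟨hv, fun t ht i => hF i t ht⟩ hnc t ht l
    · intro h v hv hnc t ht l
      exact h v hv.1 (fun i t ht => hv.2 t ht i) hnc l t ht
  rw [e1, e2, e3]
  tfae_have 1 → 3 := fun h => by
    have h1 := Pool.Agent.W235.RM.exp_of_entire σ F G h
    exact ((Pool.Agent.W235.RM.tfae σ F G).out 0 1).1 h1
  tfae_have 2 → 3 := fun h => by
    have h1 := Pool.Agent.W235.RM.rec_of_integral F G h
    exact ((Pool.Agent.W235.RM.tfae σ F G).out 5 1).1 h1
  have hal : Pool.Agent.W235.RM.GmCurvesIn σ F G →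
      Pool.Agent.N754.LT.Alone σ F G (Finset.univ.image U ∪ Finset.univ.image J) := by
    intro h z z' hz hz' hzU hG
    by_contra hne
    obtain ⟨v, hv1, hv3, t, ht, hv4⟩ := hfib z hz (fun h => by
      obtain ⟨l, hl⟩ := hG
      exact hl (h l)) z' hz' (fun i hi => by
        apply hzU
        rcases hi with ⟨l, rfl⟩ | ⟨l, rfl⟩
        · exact Finset.mem_union_left _ (Finset.mem_image_of_mem _ (Finset.mem_univ _))
        · exact Finset.mem_union_right _ (Finset.mem_image_of_mem _ (Finset.mem_univ _))) hne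
    obtain ⟨l, hl⟩ := hG
    apply hl
    rw [← hv3]
    exact h v hv1.1 (fun i t ht => hv1.2 t ht i) ⟨t, 1, ht, one_ne_zero, by rw [hv3]; exact hv4⟩
      l 1 one_ne_zero
  obtain ⟨M, hM, hT⟩ := hT
  have hT2 : Pool.Agent.H434.GM.TameOn (Pool.Agent.H434.GM.XV σ F G U) M
      fun j => Pool.Agent.H434.GM.Pm (σ.comp (algebraMap (𝓞 K) K)) (P j) := by
    refine Pool.Agent.H434.AJ.tameOn_of _ M hM _ (fun j => (hP j).map _) ?_
    intro r hr hrn a c ha hc hX
    refine hT r hr hrn a c ha hc ?_
    obtain ⟨x, ⟨z, hz, ⟨l, hl⟩, hx⟩, ht⟩ := hX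
    exact ⟨x, ⟨z, hz, fun h => hl (h l), hx⟩, ht⟩
  tfae_have 3 → 1 := fun h =>
    Pool.Agent.H434.GM.entire_covX σ F G U J P hP hU hJ M hM hT2 (hal h) h
  tfae_have 3 → 2 := fun h =>
    Pool.Agent.H434.GM.integral_covX σ F G U J P hP hU hJ M hM hT2 (hal h) fun h2 =>
      Pool.Agent.W235.RM.not_gm_of_hasLaurent σ F G h2 h
  tfae_finish

end Pool.Agent.Results.MP_e97a4d_nt.CoversByDiscriminants
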