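import Pool.Agent.H441.DQ.Aff

/-!
# The Bombieri–Lang–Vojta conjecture is a question on systems of diagonal equations

MP_e97a4d_nt, Q1. Let `m ≥ 2` be fixed (for example `m = 2`), `K` a number field with ring of integers
`𝓞 K`, and `D` a symmetric subset of `𝓞 K` which contains `1` and generates the vector space `K` over
`ℚ`; for `K = ℚ` one can take `D = {1, -1}`.

**Theorem 1.** Let `V` be any affine scheme of finite type over `𝓞 K` in `𝔸^n` (any dimension, any
singularities) and `V'` a closed subscheme. There are a system of diagonal equations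

`U : c_i0 + c_i1 y_1 ^ m + ⋯ + c_iN y_N ^ m = 0`, `i < k`, with coefficients in `D ∪ {0}`,

a closed embedding `φ : 𝔸^n → 𝔸^N` over `𝓞 K` (the coordinates `x_i` are among the polynomials `φ_j`)
and a set `J` of indices with `V = φ⁻¹(U)` and `V' = V ∩ φ⁻¹({y_j = 0, j ∈ J})` (at points over all
fields) such that all nonconstant entire curves in `U_σ`, for all embeddings `σ` of `K` in `ℂ`, lie in
one of the finitely many copies `{(ζ_1 φ_1(x), …, ζ_N φ_N(x)) : x ∈ V_σ}`, `ζ_j ^ m = 1`, of `V_σ`.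

**Theorem 2.** For every embedding `σ` the equivalence conjectured by Bombieri, Lang and Vojta (all
nonconstant entire curves in `V_σ` lie in `V'` if and only if the sets `V(O_S) ∖ V'(O_S)` are finite)

* for all affine schemes `V` of finite type over `𝓞 K` and all closed subschemes `V'` is equivalent to
  the same statement for the schemes `U : c_i0 + ∑_j c_ij y_j ^ m = 0`, `i < k`, with coefficients in
  `D ∪ {0}`, and their intersections `U ∩ {y_j = 0, j ∈ J}` with coordinate subspaces;
* for all quasi-projective schemes `V = V(F) ∖ V(T)` over `𝓞 K` (this includes all affine and all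
  projective ones) and all closed subschemes `V'` is equivalent to the same statement for the schemes
  `{∑_j c_ij y_j ^ m = 0, i < k} ∖ {y_j = 0, j ∈ I}` in `P^N` with coefficients in `D ∪ {0}`, and their
  intersections with coordinate subspaces `{y_j = 0, j ∈ J}`.

The same holds for the implication (if all nonconstant entire curves in `V_σ` lie in `V'`, then the
sets `V(O_S) ∖ V'(O_S)` are finite) instead of the equivalence.

So over `ℚ` (and over `ℤ`) the conjecture is about systems of equations like `∑_j c_ij y_j ^ 2 = 0` with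
`c_ij` in `{-1, 0, 1}`, and the vanishing of coordinates.

Proof. See `Pool/Agent/H441/DQ`. The `m`-th powers of the coordinates of a point of the system over the
field of the functions which are meromorphic near infinity are the values of a linear functional on
the `m`-th powers of many linear forms, among them the equations of `V'` and of the boundary; by a
theorem of Büchi type (`pow_Minf` of the library) the functional is the evaluation at a point or all
the ratios of its values are meromorphic at infinity. The converse implication is proved by applying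
the implication to the union of the copies of `V` in `U`, which is again replaced by coordinate
subspaces.
-/

set_option autoImplicit false

namespace Pool.Agent.Results.MP_e97a4d_nt.DiagonalSystemsSuffice

open MvPolynomial NumberField IsDedekindDomain
open Pool.Agent.N254.SQ (intPoints quasiPoints)

section affine

variable {K : Type} [Field K] {ι γ : Type} {n : ℕ}

/-- the value at `x` of a polynomial with coefficients in `𝓞 K`, for a field `Ω` over `K` -/
noncomputable def value {Ω : Type} [Field Ω] (τ : K →+* Ω) (x : Fin n → Ω)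
    (p : MvPolynomial (Fin n) (𝓞 K)) : Ω := eval₂ (τ.comp (algebraMap (𝓞 K) K)) x p

/-- (i): all nonconstant entire curves in the affine scheme `V = V(F)` lie in `V' = V(G)` -/
def AffineCurvesIn (σ : K →+* ℂ) (F : ι → MvPolynomial (Fin n) (𝓞 K))
    (G : γ → MvPolynomial (Fin n) (𝓞 K)) : Prop :=
  ∀ f : ℂ → Fin n → ℂ, Differentiable ℂ f → (∀ z i, value σ (f z) (F i) = 0) →
    (∃ z w, f z ≠ f w) → ∀ z l, value σ (f z) (G l) = 0

/-- (ii): `V(O_S) ∖ V'(O_S)` is finite for all finite extensions `L` of `K` and all finite `S` -/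
def AffinePointsIn (F : ι → MvPolynomial (Fin n) (𝓞 K)) (G : γ → MvPolynomial (Fin n) (𝓞 K)) :
    Prop :=
  ∀ (L : Type) [Field L] [NumberField L] [Algebra K L] (S : Set (HeightOneSpectrum (𝓞 L))),
    S.Finite → (intPoints F L S \ intPoints G L S).Finite

end affine

section quasi

variable {K : Type} [Field K] {ι κ γ : Type} {n : ℕ}

/-- (i): all nonconstant entire curves in the quasi-projective scheme `V = V(F) ∖ V(T)` in `P^n` lie in
`V' = V ∩ V(G)` -/
def CurvesIn (σ : K →+* ℂ) (F : ι → MvPolynomial (Fin (n + 1)) (𝓞 K))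
    (T : κ → MvPolynomial (Fin (n + 1)) (𝓞 K)) (G : γ → MvPolynomial (Fin (n + 1)) (𝓞 K)) :
    Prop :=
  ∀ f : ℂ → Fin (n + 1) → ℂ, Differentiable ℂ f → (∀ z, f z ≠ 0) →
    (∀ z i, value σ (f z) (F i) = 0) → (∀ z, ∃ k, value σ (f z) (T k) ≠ 0) →
    (∃ z w, ∀ c : ℂ, f w ≠ c • f z) → ∀ z l, value σ (f z) (G l) = 0

/-- (ii): `V(O_S) ∖ V'(O_S)` is finite for all finite extensions `L` of `K` and all finite `S` -/
def PointsIn (F : ι → MvPolynomial (Fin (n + 1)) (𝓞 K))
    (T : κ → MvPolynomial (Fin (n + 1)) (𝓞 K)) (G : γ → MvPolynomial (Fin (n + 1)) (𝓞 K)) :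
    Prop :=
  ∀ (L : Type) [Field L] [NumberField L] [Algebra K L] (S : Set (HeightOneSpectrum (𝓞 L))),
    S.Finite → (quasiPoints F T L S \
      {P | ∀ l, value (algebraMap K L) P.rep (G l) = 0}).Finite

end quasi

/-- the diagonal forms `∑ j, c i j * y j ^ m` -/
noncomputable def sys {R : Type} [CommRing R] {N k : ℕ} (m : ℕ) (c : Fin k → Fin (N + 1) → R) :
    Fin k → MvPolynomial (Fin (N + 1)) R := fun i => ∑ j, C (c i j) * X j ^ m

/-- the polynomials `c i 0 + ∑ j, c i j * y j ^ m` -/
noncomputable def affineSys {R : Type} [CommRing R] {N k : ℕ} (m : ℕ)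
    (c : Fin k → Fin (N + 1) → R) : Fin k → MvPolynomial (Fin N) R :=
  fun i => C (c i 0) + ∑ j : Fin N, C (c i j.succ) * X j ^ m

/-- the equations `y j = 0`, `j ∈ J` -/
noncomputable def coords (R : Type) [CommRing R] {r : ℕ} (J : Set (Fin r)) :
    J → MvPolynomial (Fin r) R := fun j => X (j : Fin r)

theorem result (m : ℕ) (hm : 2 ≤ m) (K : Type) [Field K] [NumberField K] (D : Set (𝓞 K))
    (hD1 : 1 ∈ D) (hD2 : ∀ x ∈ D, -x ∈ D)
    (hD3 : Submodule.span ℚ (algebraMap (𝓞 K) K '' D) = ⊤) :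
    -- Theorem 1
    (∀ (n : ℕ) (ι γ : Type) [Finite ι] (F : ι → MvPolynomial (Fin n) (𝓞 K))
      (G : γ → MvPolynomial (Fin n) (𝓞 K)),
      ∃ (N k : ℕ) (c : Fin k → Fin (N + 1) → 𝓞 K) (J : Set (Fin N))
        (φ : Fin N → MvPolynomial (Fin n) (𝓞 K)), (∀ i j, c i j = 0 ∨ c i j ∈ D) ∧
        (∀ i, ∃ j, φ j = X i) ∧
        (∀ (Ω : Type) [Field Ω] (τ : K →+* Ω) (x : Fin n → Ω),
          ((∀ i, value τ x (F i) = 0) ↔
            ∀ i, value τ (fun j => value τ x (φ j)) (affineSys m c i) = 0) ∧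
          ((∀ l, value τ x (G l) = 0) ↔ ∀ j ∈ J, value τ x (φ j) = 0)) ∧
        ∀ (σ : K →+* ℂ) (f : ℂ → Fin N → ℂ), Differentiable ℂ f →
          (∀ z i, value σ (f z) (affineSys m c i) = 0) → (∃ z w, f z ≠ f w) →
          ∃ (ζ : Fin N → ℂ) (x : ℂ → Fin n → ℂ), (∀ j, ζ j ^ m = 1) ∧ Differentiable ℂ x ∧
            (∀ z i, value σ (x z) (F i) = 0) ∧ ∀ z j, f z j = ζ j * value σ (x z) (φ j)) ∧
    -- Theorem 2
    ∀ σ : K →+* ℂ,
      -- affine schemes, the equivalence
      ((∀ (n : ℕ) (ι γ : Type) [Finite ι] (F : ι → MvPolynomial (Fin n) (𝓞 K))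
          (G : γ → MvPolynomial (Fin n) (𝓞 K)), AffineCurvesIn σ F G ↔ AffinePointsIn F G) ↔
        ∀ (N k : ℕ) (c : Fin k → Fin (N + 1) → 𝓞 K), (∀ i j, c i j = 0 ∨ c i j ∈ D) →
          ∀ J : Set (Fin N), AffineCurvesIn σ (affineSys m c) (coords (𝓞 K) J) ↔
            AffinePointsIn (affineSys m c) (coords (𝓞 K) J)) ∧
      -- affine schemes, the implication
      ((∀ (n : ℕ) (ι γ : Type) [Finite ι] (F : ι → MvPolynomial (Fin n) (𝓞 K))
          (G : γ → MvPolynomial (Fin n) (𝓞 K)), AffineCurvesIn σ F G → AffinePointsIn F G) ↔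
        ∀ (N k : ℕ) (c : Fin k → Fin (N + 1) → 𝓞 K), (∀ i j, c i j = 0 ∨ c i j ∈ D) →
          ∀ J : Set (Fin N), AffineCurvesIn σ (affineSys m c) (coords (𝓞 K) J) →
            AffinePointsIn (affineSys m c) (coords (𝓞 K) J)) ∧
      -- quasi-projective schemes, the equivalence
      ((∀ (n : ℕ) (ι κ γ : Type) [Finite ι] [Finite κ]
          (F : ι → MvPolynomial (Fin (n + 1)) (𝓞 K)) (T : κ → MvPolynomial (Fin (n + 1)) (𝓞 K))
          (G : γ → MvPolynomial (Fin (n + 1)) (𝓞 K)), (∀ i, ∃ e, (F i).IsHomogeneous e) →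
          (∀ i, ∃ e, (T i).IsHomogeneous e) → (∀ l, ∃ e, (G l).IsHomogeneous e) →
          (CurvesIn σ F T G ↔ PointsIn F T G)) ↔
        ∀ (N k : ℕ) (c : Fin k → Fin (N + 1) → 𝓞 K), (∀ i j, c i j = 0 ∨ c i j ∈ D) →
          ∀ I J : Set (Fin (N + 1)),
            CurvesIn σ (sys m c) (coords (𝓞 K) I) (coords (𝓞 K) J) ↔
              PointsIn (sys m c) (coords (𝓞 K) I) (coords (𝓞 K) J)) ∧
      -- quasi-projective schemes, the implication
      ((∀ (n : ℕ) (ι κ γ : Type) [Finite ι] [Finite κ]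
          (F : ι → MvPolynomial (Fin (n + 1)) (𝓞 K)) (T : κ → MvPolynomial (Fin (n + 1)) (𝓞 K))
          (G : γ → MvPolynomial (Fin (n + 1)) (𝓞 K)), (∀ i, ∃ e, (F i).IsHomogeneous e) →
          (∀ i, ∃ e, (T i).IsHomogeneous e) → (∀ l, ∃ e, (G l).IsHomogeneous e) →
          CurvesIn σ F T G → PointsIn F T G) ↔
        ∀ (N k : ℕ) (c : Fin k → Fin (N + 1) → 𝓞 K), (∀ i j, c i j = 0 ∨ c i j ∈ D) →
          ∀ I J : Set (Fin (N + 1)),
            CurvesIn σ (sys m c) (coords (𝓞 K) I) (coords (𝓞 K) J) →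
              PointsIn (sys m c) (coords (𝓞 K) I) (coords (𝓞 K) J)) := by
  refine ⟨fun n ι γ _ F G => Pool.Agent.H441.DQ.geo_aff D hD1 hD2 hD3 hm F G, fun σ =>
    ⟨⟨?_, ?_⟩, ⟨?_, ?_⟩, ⟨?_, ?_⟩, ⟨?_, ?_⟩⟩⟩
  · intro h N k c _ J
    exact h N (Fin k) J _ _
  · intro h n ι γ _ F G
    constructor
    · intro h1
      exact Pool.Agent.H441.DQ.implication_aff σ D hD1 hD2 hD3 hm
        (fun N k c hc J => (h N k c hc J).1) F G h1
    · intro h1
      exact Pool.Agent.H441.DQ.converse_aff σ D hD1 hD2 hD3 hm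
        (fun N k c hc J => h N k c hc J) F G h1
  · intro h N k c _ J
    exact h N (Fin k) J _ _
  · intro h n ι γ _ F G h1
    exact Pool.Agent.H441.DQ.implication_aff σ D hD1 hD2 hD3 hm
      (fun N k c hc J => h N k c hc J) F G h1
  · intro h N k c _ I J
    exact h N (Fin k) I J _ _ _ (fun i => ⟨m, Pool.Agent.H441.DQ.dform_hom _⟩)
      (fun i => ⟨1, isHomogeneous_X _ _⟩) (fun i => ⟨1, isHomogeneous_X _ _⟩)
  · intro h n ι κ γ _ _ F T G hF hT hG
    constructor
    · intro h1
      exact Pool.Agent.H441.DQ.implication σ D hD1 hD2 hD3 hm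
        (fun N k c hc I J => (h N k c hc I J).1) F T G hF hT hG h1
    · intro h1
      exact Pool.Agent.H441.DQ.converse σ D hD1 hD2 hD3 hm
        (fun N k c hc I J => h N k c hc I J) F T G hF hT hG h1
  · intro h N k c _ I J
    exact h N (Fin k) I J _ _ _ (fun i => ⟨m, Pool.Agent.H441.DQ.dform_hom _⟩)
      (fun i => ⟨1, isHomogeneous_X _ _⟩) (fun i => ⟨1, isHomogeneous_X _ _⟩)
  · intro h n ι κ γ _ _ F T G hF hT hG h1
    exact Pool.Agent.H441.DQ.implication σ D hD1 hD2 hD3 hm
      (fun N k c hc I J => h N k c hc I J) F T G hF hT hG h1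

end Pool.Agent.Results.MP_e97a4d_nt.DiagonalSystemsSuffice
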