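import Pool.Agent.H911.KR.AffB
import Pool.Agent.H911.EM.Int2

/-!
# The Bombieri–Lang–Vojta conjecture for affine schemes of relative dimension `m` over `𝓞 K` follows from
# affine hypersurfaces of relative dimension `m + 1`

Let `K` be a number field, `σ` an embedding of `K` in `ℂ`. Q1 (Bombieri, Lang, Vojta) for a scheme `V` over the
ring of integers `𝓞 K` and a closed subscheme `V'` is the equivalence of (i) all nonconstant entire curves
in `V_σ` lie in `V'_σ`; (ii) for all finite extensions `L` of `K` and all finite sets `S` of primes of `L` the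
set `V(O_S) ∖ V'(O_S)` is finite.

## (A) Affine schemes and hypersurfaces with one dimension more

Affine schemes of finite type over `𝓞 K` are given by arbitrary families of polynomials over `𝓞 K` in `n`
variables, closed subschemes `V'` by further polynomials. Let `0 ≤ k ≤ m`, `N = 2 m + 1 - k`. We consider
affine hypersurfaces in the affine space of dimension `N` over `𝓞 K`, with a projective closure `Y` in
`P^N` whose generic fibre has a singular locus of dimension less than `k`. For `k = 0` the generic fibre of
the projective closure is smooth, and the relative dimension is `N - 1 = 2 m`; for `k = m - 1` the relative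
dimension is `m + 1` and the singular locus is of dimension at most `m - 2` (for `m = 2`: threefolds in
`A^4` whose closures in `P^4` have isolated singularities).

(0) Models. Every irreducible closed subset `X` of dimension `w ≤ m` of a projective space over a field `K` of
characteristic zero (with any singularities), not contained in the hyperplane `x_0 = 0`, has a linear
projection over `K` with `A_0 = x_0` (the linear forms `A_0, …, A_N` have no common zeros on `X`; so we have
a finite morphism, birational onto the image `X'` in `P^N`, and the affine variety `X ∖ {x_0 = 0}` is the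
preimage of `X' ∖ {y_0 = 0}`) such that for all large `D`, with forms `Q_t` over `K` of the same degree `e`,
the hypersurface `Y : ∑ t, Q_t(y) (y_0 + t y_1 + ⋯ + t^N y_N)^D = 0` contains `X'`, its singular locus is of
dimension less than `k` and contained in `X'`, and for all embeddings `σ` of `K` in `ℂ` all nonconstant
entire curves in `Y_σ` and all closed subvarieties of `Y_σ` of positive dimension which are not of
general type lie in `X'_σ`.

For every number field `K` and every embedding `σ`, and every choice of one exponent `δ(e) ≥ D₁(e)` for each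
`e` we have the implications (1) ⟹ (2) ⟹ (3) ⟹ (4) between the following statements.

(1) Q1 for all affine schemes over `𝓞 K` of relative dimension at most `2 m - k` and all `V'`.
(2) Q1 for all affine hypersurfaces in `A^N` over `𝓞 K` whose projective closure has a generic fibre with
a singular locus of dimension less than `k`, and all `V'`.
(3) Q1 for the affine hypersurfaces (`y_0 = 1`)
`∑ t, Q_t(y) (y_0 + t y_1 + ⋯ + t^N y_N)^D = 0` in `A^N` whose projective closure has a generic fibre with a
singular locus of dimension less than `k`, with `N (2 N + 1)` forms `Q_t` over `𝓞 K` of the same degree `e` and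
`D = δ(e)`, and closed subschemes `V'` given by one more equation.
(4) Q1 for all affine schemes over `𝓞 K` of relative dimension at most `m` and all `V'`.

So for all `m` together the four statements are equivalent, for `k = m - 1` with a loss of one dimension
only. There is no condition on the singularities of the schemes in (4), or on the special fibres.

Proof. Let `g` be a polynomial which vanishes on all nonconstant entire curves in `V_σ`, and suppose that for
some `L` and `S` infinitely many points of `V(O_S)` are outside of `g = 0`. The forms over `K` off which there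
are only finitely many `S`-integral points, for all `L` and `S`, define a closed subset of the projective
closure; it has a component `W` (an irreducible closed set over `K` with generic point `y`, not in the
hyperplane at infinity) on which the homogenization of `g` does not vanish, and there is no form which does
not vanish at `y` and off which there are only finitely many integral points of `W ∖ {x_0 = 0}` for all `L` and
`S`. The variety `W` has a model `W'` in a hypersurface `Y` as in (0). All nonconstant entire curves in
`Y_σ` lie in `W'_σ`; those in the affine part and outside of a proper closed subset can be lifted to the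
finite birational cover `W ∖ {x_0 = 0}`, so all of them lie in a proper closed subset of `W'`. By (3) there is
a form off which there are only finitely many integral points of `Y ∖ {y_0 = 0}`, for all `L` and `S`, and
which does not vanish on `W'`; the image of an integral point of `W ∖ {x_0 = 0}` is an integral point of
`Y ∖ {y_0 = 0}` outside of finitely many primes, and so there is such a form for `W`, a contradiction. For the
other direction one needs that the preimages of integral points are integral outside of finitely many
primes; this follows from the Nullstellensatz, as the `A_i` have no common zeros on `X`.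

## (B) Open subschemes of projective schemes

A quasi-projective scheme over `𝓞 K` is `V = V(F) ∖ V(T)`, `F` and `T` families of forms over `𝓞 K` (`T`
finite). For every `N ≥ 1` and every choice of one exponent `δ(e) ≥ D₂(e)` for each `e` we prove (5) ⟹ (6).

(5) Q1 for the open subschemes of the hypersurfaces `∑ t, Q_t(y) (y_0 + t y_1 + ⋯ + t^N y_N)^D = 0` in `P^N`
with smooth generic fibre, `Q_t` (`t < N (2 N + 1)`) forms over `𝓞 K` of the same degree `e`, `D = δ(e)`.
(6) Q1 for the open subschemes of all projective schemes `X` over `𝓞 K` whose generic fibre has tangent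
spaces of dimension at most `m`, `2 m + 1 ≤ N` (for example, it is smooth of dimension at most `m`), or
`δ(X_K) ≤ N - 1`, or is of dimension at most `m` with arbitrary singularities, `3 m + 1 ≤ N`. Here `δ` is the
maximum of `dim K(x) + dim T_x` for the points `x` over extension fields.

So Q1 for all quasi-projective schemes over `𝓞 K` of relative dimension at most `m` follows from the open
subschemes of hypersurfaces with smooth generic fibre of dimension `3 m`, and if the generic fibre has a
smooth projective closure, from dimension `2 m`. The proof uses a finite morphism given by linear forms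
which is bijective and a homeomorphism for the points over all extension fields, see `Pool/Agent/H911/EM`.
-/

set_option autoImplicit false

namespace Pool.Agent.Results.MP_e97a4d_nt.SmallSingularLocus

open MvPolynomial NumberField
open Pool.Agent.N254.SQ (QuasiBLV AffineBLV SmoothOver powerFormRing powerFormOver dehom)
open Pool.Agent.W602.GT (SubVar GeneralType coords)
open Pool.Agent.H911.EM (TangentDim Delta Dim On WEmb)

/-- Q1 for the affine scheme `V` over `𝓞 K` given by the polynomials `F i`, the embedding `σ` and all closed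
subschemes `V'` of `V` (given by further polynomials `G l`): all nonconstant entire curves in `V_σ` lie in
`V'_σ` if and only if `V(O_S) ∖ V'(O_S)` is finite for all finite extensions `L` of `K` and all finite `S` -/
def AffineLang {K : Type} [Field K] {ι : Type} {n : ℕ} (σ : K →+* ℂ)
    (F : ι → MvPolynomial (Fin n) (𝓞 K)) : Prop :=
  ∀ (κ : Type) (G : κ → MvPolynomial (Fin n) (𝓞 K)), AffineBLV σ F G

/-- The generic fibre of the affine scheme over `𝓞 K` given by the polynomials `F i` is of dimension at
most `m`: the transcendence degree of the field generated by the coordinates of any point over an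
extension field of `K` is at most `m`. -/
def AffineDim {K : Type} [Field K] {ι : Type} {n : ℕ} (F : ι → MvPolynomial (Fin n) (𝓞 K))
    (m : ℕ) : Prop :=
  ∀ (Ω : Type) [Field Ω] [Algebra K Ω] (u : Fin n → Ω),
    (∀ i, eval₂ ((algebraMap K Ω).comp (algebraMap (𝓞 K) K)) u (F i) = 0) →
      Algebra.trdeg K (Algebra.adjoin K (Set.range u)) ≤ (m : Cardinal)

/-- The singular locus of the hypersurface `A = 0` over `K` is of dimension less than `k`: some `k`
linear forms over `K` have no common zero on it (over any extension field). For `k = 0` the hypersurface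
is smooth. -/
def SmallSing {K : Type} [Field K] {N : ℕ} (k : ℕ) (A : MvPolynomial (Fin (N + 1)) K) : Prop :=
  ∃ l : Fin k → Fin (N + 1) → K, ∀ (Ω : Type) [Field Ω] (τ : K →+* Ω) (x : Fin (N + 1) → Ω),
    x ≠ 0 → (∀ i, ∑ j, τ (l i j) * x j = 0) → ∃ j, eval₂ τ x (pderiv j A) ≠ 0

/-- the forms over `K` which vanish at the point `z`: the equations of the closed set `X'` with generic
point `z` -/
def Equations (K : Type) [Field K] {N : ℕ} {L : Type} [Field L] [Algebra K L]
    (z : Fin (N + 1) → L) : Set (MvPolynomial (Fin (N + 1)) K) :=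
  {p | (∃ e, p.IsHomogeneous e) ∧ aeval z p = 0}

/-- the singular locus of the hypersurface `A = 0` over `K` is of dimension less than `k`, the
hypersurface contains the irreducible closed set `X'` with generic point `z`, its singular points are in
`X'`, and for all embeddings of `K` in `ℂ` its nonconstant entire curves are in `X'` and its closed
subvarieties of positive dimension are of general type or lie in `X'` -/
structure HyperbolicOutside {K : Type} [Field K] {N : ℕ} (k : ℕ) (A : MvPolynomial (Fin (N + 1)) K)
    {L : Type} [Field L] [Algebra K L] (z : Fin (N + 1) → L) : Prop where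
  sing : SmallSing k A
  contains : ∀ (Ω : Type) [Field Ω] [Algebra K Ω] (x : Fin (N + 1) → Ω),
    (∀ p ∈ Equations K z, aeval x p = 0) → aeval x A = 0
  smooth : ∀ (Ω : Type) [Field Ω] [Algebra K Ω] (x : Fin (N + 1) → Ω), x ≠ 0 →
    (∀ j, aeval x (pderiv j A) = 0) → ∀ p ∈ Equations K z, aeval x p = 0
  curves : ∀ (σ : K →+* ℂ) (f : ℂ → Fin (N + 1) → ℂ), Differentiable ℂ f → (∀ w, f w ≠ 0) →
    (∀ w, eval₂ σ (f w) A = 0) →
    (∀ a b, ∃ c : ℂ, f b = c • f a) ∨ ∀ w, ∀ p ∈ Equations K z, eval₂ σ (f w) p = 0
  subvarieties : ∀ (σ : K →+* ℂ) (L' : Type) [Field L'] [Algebra ℂ L'] (w : ℕ)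
    (y : Fin (N + 1) → L'), 1 ≤ w → SubVar (fun _ : Unit => map σ A) L' w y →
      GeneralType ℂ L' w ∨ ∀ p ∈ Equations K z, aeval y (map σ p) = 0

/-- the generic fibre of the family `F` of forms over `𝓞 K` -/
noncomputable def generic {K : Type} [Field K] {ι : Type} {n : ℕ}
    (F : ι → MvPolynomial (Fin (n + 1)) (𝓞 K)) : ι → MvPolynomial (Fin (n + 1)) K :=
  fun i => map (algebraMap (𝓞 K) K) (F i)

/-- Q1 for all open subschemes `V = V(F) ∖ V(T)` of the projective scheme `V(F)` over `𝓞 K` and all closed
subschemes `V'` of `V` (given by the forms `G l`), and for the embedding `σ`: all nonconstant entire curves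
in `V_σ` lie in `V'_σ` if and only if `V(O_S) ∖ V'(O_S)` is finite for all finite extensions `L` of `K` and all
finite `S` -/
def OpenBLV {K : Type} [Field K] {ι : Type} {n : ℕ} (σ : K →+* ℂ)
    (F : ι → MvPolynomial (Fin (n + 1)) (𝓞 K)) : Prop :=
  ∀ (κ τ : Type) [Finite κ] (T : κ → MvPolynomial (Fin (n + 1)) (𝓞 K))
    (G : τ → MvPolynomial (Fin (n + 1)) (𝓞 K)), (∀ k, ∃ e, (T k).IsHomogeneous e) →
    (∀ l, ∃ e, (G l).IsHomogeneous e) → QuasiBLV σ F T G

/-- the generic fibre has tangent spaces of dimension at most `m`, `2 m + 1 ≤ N`, or `δ ≤ N - 1`, or it is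
of dimension at most `m`, `3 m + 1 ≤ N` -/
def FitsOver {K : Type} [Field K] {ι : Type} {n : ℕ} (F : ι → MvPolynomial (Fin (n + 1)) (𝓞 K))
    (N : ℕ) : Prop :=
  (∃ m, TangentDim (generic F) m ∧ 2 * m + 1 ≤ N) ∨ (1 ≤ N ∧ Delta (generic F) (N - 1)) ∨
    ∃ m, Dim (generic F) m ∧ 3 * m + 1 ≤ N

/-- (0): every irreducible closed subset `X` of dimension `w ≤ m` of `P^n` over a field of characteristic
zero, with generic point `y`, not in `x_0 = 0`, has a finite birational linear projection `A` to `P^N` with
`A_0 = x_0` whose image is contained in hypersurfaces of the form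
`∑ t, Q_t(y) (y_0 + t y_1 + ⋯ + t^N y_N)^D = 0` which are hyperbolic outside of it -/
def Models (m k N : ℕ) (D₁ : ℕ → ℕ) : Prop :=
  ∀ (K : Type) [Field K] [CharZero K] (n : ℕ) (L : Type) [Field L] [Algebra K L] (w : ℕ)
    (y : Fin (n + 1) → L), w ≤ m → y 0 ≠ 0 →
    SubVar (fun p : (∅ : Set (MvPolynomial (Fin (n + 1)) K)) =>
      (p : MvPolynomial (Fin (n + 1)) K)) L w y →
    ∃ (e : ℕ) (A : Fin (N + 1) → MvPolynomial (Fin (n + 1)) K), 1 ≤ e ∧ A 0 = X 0 ∧
      (∀ i, (A i).IsHomogeneous 1) ∧
      (∀ (Ω : Type) [Field Ω] [Algebra K Ω] (x : Fin (n + 1) → Ω), x ≠ 0 →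
        (∀ p ∈ Equations K y, aeval x p = 0) → ∃ i, aeval x (A i) ≠ 0) ∧
      coords K (fun i => aeval y (A i)) = ⊤ ∧
      ∀ D, D₁ e ≤ D → ∃ Q : Fin (N * (2 * N + 1)) → MvPolynomial (Fin (N + 1)) K,
        (∀ t, (Q t).IsHomogeneous e) ∧
        HyperbolicOutside k (powerFormOver D Q) fun i => aeval y (A i)

/-- Q1 for all affine schemes of relative dimension at most `d` -/
def AllAffine {K : Type} [Field K] (σ : K →+* ℂ) (d : ℕ) : Prop :=
  ∀ (n : ℕ) (ι : Type) (F : ι → MvPolynomial (Fin n) (𝓞 K)), AffineDim F d → AffineLang σ F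

/-- Q1 for all affine hypersurfaces in the affine space of dimension `N` whose closure in `P^N` has a
generic fibre with a singular locus of dimension less than `k` -/
def AllHypersurfaces {K : Type} [Field K] (σ : K →+* ℂ) (N k : ℕ) : Prop :=
  ∀ B : MvPolynomial (Fin (N + 1)) (𝓞 K), (∃ d, B.IsHomogeneous d) →
    SmallSing k (map (algebraMap (𝓞 K) K) B) → AffineLang σ (fun _ : Unit => dehom B)

/-- Q1 for the affine hypersurfaces `∑ t, Q_t(y) (y_0 + t y_1 + ⋯ + t^N y_N)^D = 0`, `y_0 = 1`, of this kind,
with `D = δ(e)`, and closed subschemes given by one more equation `g = 0` -/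
def PowerHypersurfaces {K : Type} [Field K] (σ : K →+* ℂ) (N k : ℕ) (δ : ℕ → ℕ) : Prop :=
  ∀ (e : ℕ) (Q : Fin (N * (2 * N + 1)) → MvPolynomial (Fin (N + 1)) (𝓞 K)),
    (∀ t, (Q t).IsHomogeneous e) →
    SmallSing k (map (algebraMap (𝓞 K) K) (powerFormRing (δ e) Q)) →
    ∀ g : MvPolynomial (Fin N) (𝓞 K),
      AffineBLV σ (fun _ : Unit => dehom (powerFormRing (δ e) Q)) (fun _ : Unit => g)

/-- Q1 for the open subschemes of the projective hypersurfaces
`∑ t, Q_t(y) (y_0 + t y_1 + ⋯ + t^N y_N)^D = 0` with smooth generic fibre, `D = δ(e)` -/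
def OpenSmooth {K : Type} [Field K] (σ : K →+* ℂ) (N : ℕ) (δ : ℕ → ℕ) : Prop :=
  ∀ (e : ℕ) (Q : Fin (N * (2 * N + 1)) → MvPolynomial (Fin (N + 1)) (𝓞 K)),
    (∀ t, (Q t).IsHomogeneous e) →
    SmoothOver (map (algebraMap (𝓞 K) K) (powerFormRing (δ e) Q)) →
    OpenBLV σ (fun _ : Unit => powerFormRing (δ e) Q)

/-- Q1 for the open subschemes of the projective schemes `V(F)` with `FitsOver F N` -/
def AllOpen {K : Type} [Field K] (σ : K →+* ℂ) (N : ℕ) : Prop :=
  ∀ (n : ℕ) (ι : Type) (F : ι → MvPolynomial (Fin (n + 1)) (𝓞 K)),
    (∀ i, ∃ e, (F i).IsHomogeneous e) → FitsOver F N → OpenBLV σ F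

/-- **The Bombieri–Lang–Vojta conjecture for affine schemes of relative dimension `m` follows from affine
hypersurfaces of relative dimension `2 m - k` whose projective closure has a singular locus of dimension
less than `k`; for open subschemes of projective schemes it follows from open subschemes of smooth
hypersurfaces of dimension `2 m`, respectively `3 m`.** -/
theorem result :
    -- (A) affine schemes: (0) models, (1) implies (2), (2) implies (3), (3) implies (4)
    (∀ m k N : ℕ, k ≤ m → N + k = 2 * m + 1 → ∃ D₁ : ℕ → ℕ, Models m k N D₁ ∧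
      ∀ (K : Type) [Field K] [NumberField K] (σ : K →+* ℂ),
        (AllAffine σ (N - 1) → AllHypersurfaces σ N k) ∧
        ∀ δ : ℕ → ℕ, (∀ e, D₁ e ≤ δ e) →
          (AllHypersurfaces σ N k → PowerHypersurfaces σ N k δ) ∧
          (PowerHypersurfaces σ N k δ → AllAffine σ m)) ∧
    -- (B) open subschemes of projective schemes: (5) implies (6)
    (∀ N : ℕ, 1 ≤ N → ∃ D₂ : ℕ → ℕ,
      ∀ (K : Type) [Field K] [NumberField K] (σ : K →+* ℂ) (δ : ℕ → ℕ), (∀ e, D₂ e ≤ δ e) →
        OpenSmooth σ N δ → AllOpen σ N) := by
  refine ⟨fun m k N hk hN => ?_, fun N hN => ?_⟩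
  · obtain ⟨D₁, H⟩ := Pool.Agent.H911.KR.exists_bounds N k (by omega)
    refine ⟨D₁, ?_, fun K _ _ σ => ⟨?_, fun δ hδ => ⟨?_, ?_⟩⟩⟩
    · intro K _ _ n L _ _ w y hwm hy0 hy
      have hgen : Pool.Agent.H911.KR.Gen K L w y := ⟨hy.ne, hy.gen, hy.dim⟩
      obtain ⟨e, z, A, R, G, he, hz, hP, hA0, hQ⟩ := Pool.Agent.H911.KR.affine_models H
        (show m + 1 ≤ N by omega) (by omega) hwm hgen hy0
      refine ⟨e, A, he, hA0, hP.homA, fun Ω _ _ x hx hxE => hP.reg Ω x hx hxE, ?_, fun D hD => ?_⟩
      · rw [hP.z_eq]
        exact hz.gen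
      · obtain ⟨Q, hQ1, hQ2⟩ := hQ D hD
        refine ⟨Q, hQ1, ?_⟩
        rw [hP.z_eq]
        exact ⟨hQ2.sing, hQ2.van, hQ2.out, hQ2.curves, hQ2.sub⟩
    · intro h B hB hsm
      refine h _ Unit _ (Pool.Agent.H911.KR.dim_dehom ?_
        (Pool.Agent.H911.KR.small_ne (show k ≤ N by omega) hsm))
      obtain ⟨d, hd⟩ := hB
      exact ⟨d, hd.map _⟩
    · intro h e Q hQ hsm g
      exact h _ ⟨_, Pool.Agent.H911.EM.ring_hom hQ⟩ hsm Unit _
    · intro h n ι F hd κ G
      have hE : ∀ e, ∃ D ∈ ({δ e} : Set ℕ), D₁ e ≤ D := fun e => ⟨δ e, rfl, hδ e⟩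
      exact Pool.Agent.H911.KR.affine_final (show m + 1 ≤ N by omega) (by omega) H hE σ
        (fun e D Q hDE _ hQ hsm g => by
          obtain rfl : D = δ e := hDE
          exact h e Q hQ hsm g) hd G
  · obtain ⟨D₁, H⟩ := Pool.Agent.H911.EM.exists_mainW N hN
    refine ⟨D₁, fun K _ _ σ δ hδ h n ι F hF hfit κ τ _ T G hT hG => ?_⟩
    have hFK : Pool.Agent.H911.EM.Forms (generic F) := by
      intro i
      obtain ⟨e, he⟩ := hF i
      exact ⟨e, he.map _⟩
    have hsmall : Pool.Agent.H911.EM.Small (Set.range (generic F)) N := by
      rcases hfit with ⟨m, h, hm⟩ | ⟨hN1, h⟩ | ⟨m, h, hm⟩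
      · exact Or.inl ⟨2 * m, Pool.Agent.H911.EM.sm_of hFK (Pool.Agent.H911.EM.delta_of hFK h), hm⟩
      · exact Or.inl ⟨N - 1, Pool.Agent.H911.EM.sm_of hFK h, by omega⟩
      · exact Or.inr ⟨m, Pool.Agent.H911.EM.dm_of hFK h, hm⟩
    obtain ⟨e, S', A₀, he, hE₀, -, h1⟩ := H K n (Set.range (generic F)) hsmall
    obtain ⟨c₀, A, hc₀, hA₀⟩ := Pool.Agent.H911.EM.exists_denom A₀
    have hcK : algebraMap (𝓞 K) K c₀ ≠ 0 := by
      rw [Ne, map_eq_zero_iff _ (FaithfulSMul.algebraMap_injective (𝓞 K) K)]
      exact hc₀
    have hEm := hE₀.scale hcK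
    rw [← funext hA₀] at hEm
    obtain ⟨Q₀, hQ₀, hsm₀, hv₀, hO₀⟩ := h1 (δ e) (hδ e)
    obtain ⟨Q, hQ, hsm, hv, hO⟩ := Pool.Agent.H911.EM.int_power hQ₀ hsm₀ hv₀ hO₀
    exact Pool.Agent.H911.EM.quasi_transfer hF hEm ⟨_, Pool.Agent.H911.EM.ring_hom hQ⟩ hv σ (hO σ)
      (h e Q hQ hsm) hT hG

end Pool.Agent.Results.MP_e97a4d_nt.SmallSingularLocus
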